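import Pool.Agent.K9h86.BQ.As

set_option autoImplicit false

/-! # Beilinson's conjecture for `K₂` of the quotients of a curve and Brauer relations

Let `X` be a smooth projective geometrically irreducible curve over a number field `K`, and let the
finite group `G` act on `X`; it may act on `K` as well. For a subgroup `U` of `G` the quotient
`X / U` is a smooth projective curve, geometrically irreducible over its field of constants
`k = K^U`, a number field. So Q1 and Q2 can be asked for `X / U`. For example

* `G` acts trivially on `K`: the `X / U` are quotients of `X` by groups of automorphisms over `K`;
* `X = C_K` for a Galois extension `K / F` with the group `G` and a curve `C` over `F`: then `X / U`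
  is the base change of `C` to `K^U`;
* `K / F` is quadratic and the involution `ι` of `C` gives an action of `G = Gal(K / F) × ⟨ι⟩` on
  `C_K`: then the quotients are `C`, its quadratic twist by `ι`, `C / ι` over `K` and over `F`.

A Brauer relation is a relation `∑ c_U 1_{G/U} = 0` with integers `c_U` between the characters of the
permutation representations of `G` on the sets `G / U`. The theorem: if `c_W` is `1` or `-1` and the
conjecture (Q1 and Q2) is true for all `X / U` with `U ≠ W` and `c_U ≠ 0`, then it is true for
`X / W`. For example, if `G` is a product of two cyclic groups of the prime order `p`, then the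
sum of the `1_{G/U}` over the `p + 1` subgroups `U` of order `p` is `1_{G/1} + p 1_{G/G}`; so the
conjecture for `X` follows from that for the quotients of `X` by the nontrivial subgroups, which are
curves over smaller fields or, if the genus of `X` is at least two, of a smaller genus. The same is true for the nonabelian groups of
order `p q`, `q | p - 1`, in particular for the dihedral groups of order `2 p`
(`1_{G/1} + q 1_{G/G} = 1_{G/P} + q 1_{G/Q}`), and hence for all groups which contain one of these.

The data of `X` which are used are in `Pool.Agent.K9h86.BQ.Df`: the action of `G` and of the Frobenius
elements on the cohomology `H¹` of `X` as a curve over `ℚ`, the action of `G` on `H²_ℳ(X, ℚ(2))_ℤ`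
and on `H₁(X(ℂ), ℚ)⁻`, and the regulator pairing, which is invariant under `G`. The conjecture for
`X / U` is stated in terms of the parts fixed by `U`: these are `H²_ℳ(X / U, ℚ(2))_ℤ`,
`H₁((X / U)(ℂ), ℚ)⁻` (of the dimension `g [k : ℚ]`) and the cohomology of `X / U`. The pairing of
the parts fixed by `U` is the pairing for `X / U`, as `r(π^* ξ)(γ) = r(ξ)(π_* γ)` for the projection
`π`. The L-function of `X / U` over `k` is the one of the same curve over `ℚ`. The finitely many Euler
factors at the bad primes, which are nonzero rational numbers at `s = 2`, are left out.

The proof. From the relation, `∏ L(X / U, 2)^(c_U) = 1` by comparison of the traces of the powers of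
`1 - p^(-2) Frob_p` on the parts fixed by `U`. For the regulators there is the abstract theorem
`Pool.Agent.K9h86.BQ.rel`: let `V`, `H` be rational representations of `G`, `V` of any dimension, and
`B : V × H → ℝ` an invariant pairing. If `det(B on V^U × H^U)` is defined and not zero for all
`U ≠ W` with `c_U ≠ 0`, then also for `W`, and the product of these determinants with the exponents
`c_U` is rational. For this one passes to the subspaces `V'` and `H'` generated by the `g V^U` and
`g H^U`; they contain `V^W` and `H^W` (`fix_le_gen`) and for a suitable `ℚ`-linear form `l` on `ℝ` the
pairing `l ∘ B` of `V'` and `H'` is non-degenerate (`gen_nondeg`). Then there is a `G`-endomorphism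
`A` of `Hom(H', ℂ)` which carries the embedding of `V'` given by `l ∘ B` to the one given by `B`, and
the determinant of `B` on `V^U × H^U` is a rational number times that of `A` on the part fixed by
`U`. -/

namespace Pool.Agent.Results.MP_0a9c3b_nt.BrauerRelationsForQuotients

open Pool.Agent.K9h86.BQ

/-- **Beilinson's conjecture for `K₂` of curves is compatible with Brauer relations.** Let the finite
group `G` act on the curve `X` over a number field, and also on the field, let
`∑ c_U 1_{G/U} = 0` be a relation between the permutation characters of `G`, and let `W` be a
subgroup with `c_W = ±1`. If Beilinson's conjecture (Q1 and Q2) is true for the curves `X / U` for all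
subgroups `U ≠ W` with `c_U ≠ 0`, then it is true for the curve `X / W`. -/
theorem result {G : Type} [Group G] [Finite G] (X : CurveWithAction G) (c : Subgroup G → ℤ)
    (hc : ∀ g : G, ∑ᶠ U : Subgroup G, c U * (permChar U g : ℤ) = 0) (W : Subgroup G)
    (hW : c W = 1 ∨ c W = -1) (h : ∀ U : Subgroup G, U ≠ W → c U ≠ 0 → Beilinson X U) :
    Beilinson X W :=
  main X c hc W hW h

end Pool.Agent.Results.MP_0a9c3b_nt.BrauerRelationsForQuotients
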