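import Pool.Agent.K9h21.GP.GenB
import Pool.Agent.K9h21.GP.GeoAll
import Pool.Agent.K9h21.GP.RedAll
import Pool.Agent.K9h21.GP.Geo
import Pool.Agent.K9h21.GP.Trp
import Pool.Agent.K9h21.GP.AvgG
import Pool.Agent.K9h21.GP.Wn2
import Pool.Agent.K9h21.GP.Tcb
import Pool.Agent.N76.RG.All2

set_option autoImplicit false

/-!
Beilinson's conjecture on `K_2` of curves over number fields: *complete independence over `ℝ` of the regulators of almost all
special points*, for every smooth curve `z + 1/z = F(x)` over a number field, in every genus.

Let `C` be the curve `z + 1/z = F(x)` of genus `g ≥ 1` over a number field `K`, where `F` is an arbitrary monic polynomial of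
degree `g + 1` with integral coefficients such that `F² - 4` has no multiple root (that is, `C` is smooth). A point `b` is
special of level `k` if `F(b) = η + 1/η` for a root of unity `η` of order `k`. The symbols `{z, (x - b) / (x - b')}` of special
points are unramified, so they are elements of the integral part of `H^2_M(C, ℚ(2))`. Since `{z, F(x) - F(b)}` is a torsion
symbol, the `g + 1` points over one special value `F(b)` give only `g` classes. The theorem says that, apart from finitely
many special values (those of level less than `k₀`), these are the only linear relations over `ℝ` between the regulators,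
over all number fields `L` in which the points lie, and even at the places of `L` above any one embedding `σ` of `K`. So `p`
special values of large levels, which may be different and arbitrary, give exactly `g p` classes with independent regulators.

Only if the polynomial `F(X) + F(Y)` is reducible over `ℂ` (for example, if `F` is odd, or `F(γ x + δ) = -F(x)`; then the curve
has the automorphism `x ↦ γ x + δ`, `z ↦ -z`), the special values of the points have to be different up to sign. (The fibres
over `v` and `-v` are then not independent: the Galois group does not act transitively on the pairs.)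

For `g = 1` this is the theorem on elliptic curves in `Pool/Agent/Results/MP_15b3df_nt/AllSpecialPoints.lean`. The curves of
genus `≥ 2` are new.

The proof. (1) Let `b`, `b'` be special points. If the fibre over `v' = F(b')` does not generate an extension of degree `g + 1`
over the field `K(ζ, b)`, `ζ` a root of unity, then the coefficients of a factor of `F(X) - v'`, multiplied by `F'(b)`, are
algebraic integers of `K(ζ)` with bounded conjugates; by Loxton's theorem, in a form over the number field `K`, they are sums
of boundedly many products of a fixed number and a root of unity. So we get a torsion point on one of finitely many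
subvarieties of tori. If the level of `b'` is large, it lies on a torsion coset of positive dimension, and we get a
factorisation of `F(Y) - w'(t)` over the function field of `F(x) = w(t)`, `w(t) = α t^a + 1/(α t^a)`, `w'(t) = β t^b + 1/(β t^b)`.
(2) *This is impossible, unless `a = ± b` and `β = ± α^(± 1)`, that is, `v' = ± v`.* Let `n = g + 1`, `a, b > 0`, and let `Z` be the set
of the pairs `(x, y)` of roots of `F(x) = w(t)`, `F(y) = w'(t)` for which `y` is a root of the first factor. The sum of
`y^k x^(n-1-i) / F'(x)` over `Z` is an analytic function of `t ≠ 0`, which grows at most like `|t|^((k b - i a) / n)` for `t → ∞` and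
`|t|^(-(k b - i a) / n)` for `t → 0`. So it is `0` for `k b < i a`, and constant for `k b = i a`. For large `|t|` the roots `x`, `y` are
approximately multiples of the `n`-th roots of unity, and the sums are Fourier coefficients of the indicator function of
`Z ⊆ ℤ/n × ℤ/n`. The same with `x` and `y` exchanged; the indicator function is real. So all the Fourier coefficients but
one vanish if `a ≠ b`, and `Z` would be empty or everything. If `a = b` then `Z` is given by a set `U` of quotients `y/x`, numbers
with `ζ^n = β/α`, and for `t → 0` by a set `U'` of numbers with `ζ^n = α/β`; `U` and `U'` have the same power sums of the exponents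
`< n`. By Newton's identities `U = U'`, and `β = ± α`. If `β = -α`, `v' = -v`, then it follows moreover that `Z` depends only on
`w(t)`, so the sums are entire functions of `w` which grow more slowly than `w`, and they are constant: `Z` is given by a
factor of `F(X) + F(Y)`, and this polynomial is reducible. (3) So the values of the points at the embeddings above an
embedding of `K(ζ)` are independent in pairs, and the sum of the squares of a relation shows that a relation is a sum of
relations between the points of one fibre. (4) Such a relation is impossible: an embedding moves the fibre into a window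
in which the combination of the regulators, a function of the angle of `η`, is not zero; this follows from the reflection
principle and from the growth of the potential.
-/

namespace Pool.Agent.Results.MP_0a9c3b_nt.CompleteIndependence

open Polynomial

open Pool.Agent.TH826.MK (KQ symb Torus Unramified)

open Pool.Agent.TH826.HD (PRing POpen pent toP pcst isDomain_PRing)

open Pool.Agent.Y775.CC (SmoothPts)

/-- `x = η + 1/η` for a root of unity `η` of order `n`: `n` is the least positive number with `C_n(x) = 2`, where `C_n` is
the polynomial with `C_n(η + 1/η) = η^n + 1/η^n`. -/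
def SpecialValue {L : Type*} [Field L] (n : ℕ) (x : L) : Prop :=
  0 < n ∧ (Chebyshev.C L n).eval x = 2 ∧ ∀ m : ℕ, 0 < m → m < n → (Chebyshev.C L m).eval x ≠ 2

/-- In the function field `M` of the curve `z² - F(x) z + 1 = 0` the symbols `{z, (x - c_k) / (x - c_l)}` are unramified
at all discrete valuations, and the `m` symbols `{z, (x - c_i) / (x - c_0)}`, `1 ≤ i ≤ m`, are linearly independent over
`ℚ` in `K_2(M) ⊗ ℚ`. -/
def IndependentUnramified.{u, w} {L : Type u} [Field L] {m : ℕ} (F : L[X]) (c : Fin (m + 1) → L) : Prop :=
  ∀ (M : Type w) [Field M] [Algebra (PRing F) M] [IsFractionRing (PRing F) M],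
    ∃ f : POpen F c →+* M, (∀ a : PRing F, f (toP F c a) = algebraMap (PRing F) M a) ∧
      (∀ k l, KQ.map 2 f (symb (pent F c k l)) ∈ Unramified M 2) ∧
      LinearIndependent ℚ fun i : Fin m => KQ.map 2 f (symb (pent F c i.succ 0))

/-- There are `m` different embeddings `s_1, ..., s_m` of `L` in `ℂ` above the embedding `σ` of `K`, and for each `s_i` a
loop `Γ_i` of complex points of the curve over `s_i` which avoids the points over `c_0, ..., c_m`, such that the
determinant of the regulators of the `m` symbols `{z, (x - c_j) / (x - c_0)}`, `1 ≤ j ≤ m`, on the `m` loops `Γ_i` is not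
zero. -/
def IndependentRegulators {K L : Type*} [Field K] [Field L] [Algebra K L] (σ : K →+* ℂ) {m : ℕ} (F : L[X])
    (c : Fin (m + 1) → L) : Prop :=
  ∃ (s : Fin m → (L →+* ℂ)) (Γ : Fin m → Torus (POpen F c) 1),
    Function.Injective s ∧ (∀ i, (s i).comp (algebraMap K L) = σ) ∧
    (∀ i t (y : L), (Γ i).e t (pcst F c y) = s i y) ∧
    (Matrix.of fun i j : Fin m => (Γ i).reg (symb (pent F c j.succ 0))).det ≠ 0

/-- `F(X) + F(Y)` is reducible over `ℂ`, at an embedding `σ` of `K`. (It is considered as a polynomial in `Y` over `ℂ[X]`; `F` will be
monic of positive degree, so it is neither `0` nor a unit.) -/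
def ReducibleSum {K : Type*} [Field K] (F : K[X]) : Prop :=
  ∃ σ : K →+* ℂ, ¬ Irreducible ((F.map σ).map (C : ℂ →+* ℂ[X]) + C (F.map σ))

/-- Let `K` be a number field and `F` *any* monic polynomial of degree `g + 1 ≥ 2` whose coefficients are algebraic integers
of `K` such that `F² - 4` is squarefree, so that `C : z + 1/z = F(x)` is a smooth curve of genus `g`. There is a number `k₀` with
the following property. Let `L` be any number field over `K` and let `b_0, ..., b_m ∈ L` be different special points of levels
`k_i ≥ k₀`, that is, `F(b_i) = η_i + 1/η_i` with a root of unity `η_i` of order `k_i`, such that no special value `F(b_i) ≠ F(b_0)`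
belongs to `g + 1` of the points, that is, to all points over this value; if `F(X) + F(Y)` is reducible over `ℂ`, assume moreover
`F(b_i) ≠ -F(b_j)` for all `i`, `j`. The levels are arbitrary and may be different. Then the coordinate ring of `C` over `L` is a domain, the complex points of `C` over all
embeddings of `L` are smooth, and the `m` symbols `{z, (x - b_i) / (x - b_0)}`, `1 ≤ i ≤ m`, are unramified at all discrete
valuations of the function field `M` of `C`, linearly independent over `ℚ` in `K_2(M) ⊗ ℚ`, and their regulators are linearly
independent over `ℝ`: for every embedding `σ` of `K` there are `m` different embeddings of `L` above `σ` and for each one a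
loop of complex points such that the determinant of the regulators of the `m` symbols on the `m` loops is not zero. -/
theorem result.{u, v, w} (g : ℕ) (hg : 1 ≤ g) (K : Type u) [Field K] [NumberField K] (F : K[X])
    (hF1 : F.Monic) (hdeg : F.natDegree = g + 1) (hF : ∀ i, IsIntegral ℤ (F.coeff i))
    (hsq : Squarefree (F ^ 2 - 4)) :
    ∃ k₀ : ℕ, ∀ (L : Type v) [Field L] [NumberField L] [Algebra K L] (m : ℕ) (b : Fin (m + 1) → L)
      (k : Fin (m + 1) → ℕ), Function.Injective b →
      (∀ i, k₀ ≤ k i ∧ SpecialValue (k i) ((F.map (algebraMap K L)).eval (b i))) →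
      (ReducibleSum F →
        ∀ i j, (F.map (algebraMap K L)).eval (b i) ≠ -(F.map (algebraMap K L)).eval (b j)) →
      (∀ i, (F.map (algebraMap K L)).eval (b i) ≠ (F.map (algebraMap K L)).eval (b 0) →
        Nat.card {j // (F.map (algebraMap K L)).eval (b j) = (F.map (algebraMap K L)).eval (b i)} < g + 1) →
      IsDomain (PRing (F.map (algebraMap K L))) ∧
      (∀ s : L →+* ℂ, SmoothPts s (F.map (algebraMap K L))) ∧
      IndependentUnramified.{v, w} (F.map (algebraMap K L)) b ∧
      ∀ σ : K →+* ℂ, IndependentRegulators σ (F.map (algebraMap K L)) b := by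
  classical
  have key : ∀ σ : K →+* ℂ, ∃ k₀ : ℕ, 3 ≤ k₀ ∧ ∀ (L : Type v) [Field L] [NumberField L] [Algebra K L] (m : ℕ)
      (b : Fin (m + 1) → L) (k : Fin (m + 1) → ℕ), Function.Injective b →
      (∀ i, k₀ ≤ k i ∧ (Chebyshev.C L (k i)).eval ((F.map (algebraMap K L)).eval (b i)) = 2 ∧
        ∀ q : ℕ, 0 < q → q < k i → (Chebyshev.C L q).eval ((F.map (algebraMap K L)).eval (b i)) ≠ 2) →
      (ReducibleSum F →
        ∀ i j, (F.map (algebraMap K L)).eval (b i) ≠ -(F.map (algebraMap K L)).eval (b j)) →
      (∀ i, (F.map (algebraMap K L)).eval (b i) ≠ (F.map (algebraMap K L)).eval (b 0) →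
        Nat.card {j // (F.map (algebraMap K L)).eval (b j) = (F.map (algebraMap K L)).eval (b i)} < g + 1) →
      (∃ N : ℕ, 0 < N ∧ ∀ i, b i ∈ Pool.Agent.N76.EC.Sp F L N) ∧
      (∀ (M : Type w) [Field M] [Algebra (PRing (F.map (algebraMap K L))) M]
        [IsFractionRing (PRing (F.map (algebraMap K L))) M]
        (f : POpen (F.map (algebraMap K L)) b →+* M)
        (_ : ∀ a : PRing (F.map (algebraMap K L)), f (toP (F.map (algebraMap K L)) b a) = algebraMap _ M a),
        LinearIndependent ℚ fun i : Fin m =>
          KQ.map 2 f (symb (pent (F.map (algebraMap K L)) b i.succ 0))) ∧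
      IndependentRegulators σ (F.map (algebraMap K L)) b := by
    intro σ
    have hcr : ∀ x, (derivative (F.map σ)).eval x = 0 → ((F.map σ).eval x) ^ 2 ≠ 4 := by
      intro x hx h4
      have h5 : ((F.map σ).eval x - 2) * ((F.map σ).eval x + 2) = 0 := by linear_combination h4
      rcases mul_eq_zero.1 h5 with h5 | h5
      · exact Pool.Agent.N76.EC.not_crit' hsq σ (c := 2) (by norm_num) ⟨x, hx, sub_eq_zero.1 h5⟩
      · exact Pool.Agent.N76.EC.not_crit' hsq σ (c := -2) (by norm_num) ⟨x, hx, eq_neg_of_add_eq_zero_left h5⟩
    obtain ⟨k₀, hk₀, hmain⟩ := Pool.Agent.K9h21.GP.strongP.{u, v, w} Pool.Agent.K9h21.GP.geo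
      Pool.Agent.K9h21.GP.trp Pool.Agent.K9h21.GP.avgg (Pool.Agent.K9h21.GP.wn2 Pool.Agent.K9h21.GP.tcb)
      Pool.Agent.N76.RG.trc Pool.Agent.N76.RG.loxq Pool.Agent.N76.RG.t_spg
      Pool.Agent.N76.RG.det_ K F (g + 1) (by omega) hF1 hdeg hF hsq σ _
      (Pool.Agent.K9h21.GP.gqB Pool.Agent.K9h21.GP.geo Pool.Agent.K9h21.GP.corAll Pool.Agent.K9h21.GP.limAll
        Pool.Agent.K9h21.GP.t2All Pool.Agent.K9h21.GP.redAll (F.map σ) (hF1.map σ) hcr)
    exact ⟨k₀, hk₀, fun L _ _ _ m b k hbinj hb hb0 hbT => hmain L m b k hbinj hb
      (fun h => hb0 ⟨σ, h⟩) hbT⟩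
  choose k₀ hk₀ using key
  refine ⟨Finset.univ.sup k₀, fun L _ _ _ m b k hbinj hb hb0 hbT => ?_⟩
  have hdL : 0 < (F.map (algebraMap K L)).natDegree := by
    rw [hF1.natDegree_map, hdeg]
    omega
  have hmL : (F.map (algebraMap K L)).Monic := hF1.map _
  have hFL : ∀ i, IsIntegral ℤ ((F.map (algebraMap K L)).coeff i) := fun i => by
    rw [coeff_map]
    exact (hF i).map ((algebraMap K L).toIntAlgHom)
  obtain ⟨s⟩ : Nonempty (L →+* ℂ) := inferInstance
  have hall := fun σ : K →+* ℂ => (hk₀ σ).2 L m b k hbinj (fun i =>
    ⟨(Finset.le_sup (Finset.mem_univ σ)).trans (hb i).1, (hb i).2.2⟩) hb0 hbT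
  obtain ⟨⟨N, hN, hSp⟩, h3, -⟩ := hall (s.comp (algebraMap K L))
  refine ⟨isDomain_PRing hdL, fun s => Pool.Agent.N76.EC.smooth_of_squarefree
    (Pool.Agent.N76.EC.squarefree_map hsq) s, ?_, fun σ => (hall σ).2.2⟩
  intro M _ _ _
  obtain ⟨f, hf, hun⟩ := Pool.Agent.N76.EC.exists_lift_unramified hmL hdL hFL s hN (fun i => (hSp i).1) M
  exact ⟨f, hf, hun, h3 M f hf⟩

end Pool.Agent.Results.MP_0a9c3b_nt.CompleteIndependence
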