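import Pool.Agent.K9h86.BK.Ld

set_option autoImplicit false

/-! # Beilinson's conjecture for `K₂` of curves and base changes of large degree

Let `C` be a smooth projective geometrically irreducible curve over the number field `F`. Only the
following data are used (in `Pool.Agent.K9h86.BK.Df`): `CurveOver`, the data of `C` (genus, Frobenius
polynomials outside a
finite set of primes, complex conjugation on the rational homology of the `C_τ(ℂ)`, `τ : F → ℂ`),
and `MotivicCohomology`, for a finite Galois extension `K` of `F`, the `ℚ`-vector space
`H²_ℳ(C_K, ℚ(2))_ℤ` with the action of `Gal(K / F)` and the regulator. For `F ⊆ k ⊆ K` the space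
`H²_ℳ(C_k, ℚ(2))_ℤ` consists of the invariants of `Gal(K / k)`. `Beilinson k D` says: both
`H²_ℳ(C_k, ℚ(2))_ℤ` and `H₁(C_k(ℂ), ℚ)⁻` have the dimension `g [k : ℚ]`, the regulator pairing is
non-degenerate, and its determinant in bases over `ℚ` is in `ℚ^× (2π)^(-2g[k:ℚ]) L(C_k, 2)`. This
is Q1, and Q2 in the form of the outer terms of the congruence, for the curve `C_k`.

The theorem: for any two different odd primes `p` and `q`, any finite set of primes `S` and any
number field `F₀` containing `F` there is a Galois extension `K` of `F` with Galois group
`(ℤ/p)² × (ℤ/q)²` which has the following two properties.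

* All the fields `k` between `F` and `K` are test extensions: `k = F · k₀` for a totally real
  abelian number field `k₀` of the same degree over `ℚ` in which all the primes of `S` split
  completely and which is disjoint from `F₀` (no subfield of `k₀` but `ℚ` can be embedded in `F₀`).
* For every curve `C` over `F`: if Beilinson's conjecture is true for the curves `C_k` for the
  fields `k` between `F` and `K` of degree `p`, `p²`, `q` and `q²` over `F`, then it is true for
  `C` over `F`.

So the conjecture for `C` follows from the conjecture for base changes of large degree, with a
prescribed behaviour at finitely many primes; nothing is assumed over `K` itself. And a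
counterexample `C` is never isolated: for all `p`, `q`, `S` and `F₀` the conjecture also fails for
the base change of `C` to a field `k = F · k₀` of degree `p`, `p²`, `q` or `q²` as above. The
fields do not depend on the curve.

The proof: there is a totally real abelian field `K₀` with Galois group `(ℤ/p)² × (ℤ/q)²` in which
the primes of `S` split completely, disjoint from `F₀` (`Pool.Agent.K9h41.LD.exists_test`, helper41,
with leaves by helper24, helper74 and helper76). Then `K = F · K₀` has the same Galois group over
`F`, and the fields between `F` and `K` are the fields `F · k₀`, `k₀ ⊆ K₀`
(`Pool.Agent.K9h76.LB.exists_comp`, `test_of_sub`, helper76). The `p + 1` subgroups `U` of index `p`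
and the subgroup `V` of index `p²` with quotient `(ℤ/p)²` give the relation
`p = ∑ Ind_U 1 - Ind_V 1` between permutation characters, and similarly for `q`; as `p` and `q` are
coprime, `1` is a combination with integral coefficients of the permutation characters for the
fields of degree `p`, `p²`, `q`, `q²` (`Pool.Agent.K9h41.LD.exists_rel`). The `L`-functions satisfy
the corresponding multiplicative relation. For the regulators this is the abstract theorem
`Pool.Agent.K9h86.BQ.rel` (`BrauerRelationsForQuotients`), which does not need that the regulator
pairing over `K` is non-degenerate or that `H²_ℳ(C_K, ℚ(2))_ℤ` is finite dimensional. -/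

namespace Pool.Agent.Results.MP_0a9c3b_nt.LargeDegreeBaseChange

open NumberField Pool.Agent.K9h76.LB Pool.Agent.K9h86.BK

/-- **Beilinson's conjecture for `K₂` of curves follows from the conjecture for base changes of
large degree.** Let `F` be a number field, let `p` and `q` be two different odd prime numbers, `S` a
finite set of prime numbers and `F₀` a number field containing `F`. There is a Galois extension `K`
of `F` with Galois group `(ℤ/p)² × (ℤ/q)²` such that all fields `k` between `F` and `K` satisfy
`IsTestExtension S F₀ F k`, and such that for every curve `C` over `F` Beilinson's conjecture for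
`C` (the non-degeneracy of the regulator pairing, with the right dimension, and the value of its
determinant in terms of `L(C, 2)`) follows from that for the base changes of `C` to the fields
between `F` and `K` of degree `p`, `p²`, `q` or `q²` over `F`. -/
theorem result (F : Type) [Field F] [NumberField F] {p q : ℕ} (hp : p.Prime) (hq : q.Prime)
    (hp2 : p ≠ 2) (hq2 : q ≠ 2) (hpq : p ≠ q) (S : Finset ℕ) (hS : ∀ r ∈ S, r.Prime) (F₀ : Type)
    [Field F₀] [NumberField F₀] [Algebra F F₀] :
    ∃ (K : Type) (_ : Field K) (_ : NumberField K) (_ : Algebra F K) (_ : IsGalois F K),
      Nonempty ((K ≃ₐ[F] K) ≃* Multiplicative ((ZMod p × ZMod p) × (ZMod q × ZMod q))) ∧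
      (∀ k : IntermediateField F K, IsTestExtension (S : Set ℕ) F₀ F k) ∧
      ∀ (C : CurveOver F) (D : MotivicCohomology C K),
        (∀ k : IntermediateField F K, Module.finrank F k ∈ ({p, p ^ 2, q, q ^ 2} : Set ℕ) →
          Beilinson k D) → Beilinson F D :=
  main_ld F hp hq hp2 hq2 hpq S hS F₀

end Pool.Agent.Results.MP_0a9c3b_nt.LargeDegreeBaseChange
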